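import Pool.Agent.U307.NIL.Stm

/-!
# Project NIL, package PH: irreducible representations of finite dimension (helper535)
-/

set_option autoImplicit false

open Filter Topology Finset
open scoped InnerProductSpace Polynomial

namespace Pool.Agent.U535.NIL

open Pool.Agent.U307.NIL

/-- sums of polynomials are polynomials -/
lemma exS (E : ℝ[X]) : ∃ S : ℝ[X], ∀ n : ℕ, S.eval (n : ℝ) = ∑ l ∈ range n, E.eval (l : ℝ) := by
  induction E using Polynomial.induction_on' with
  | add p q hp hq =>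
    obtain ⟨S, hS⟩ := hp
    obtain ⟨T, hT⟩ := hq
    refine ⟨S + T, fun n => ?_⟩
    simp [hS, hT, Finset.sum_add_distrib]
  | monomial p c =>
    refine ⟨Polynomial.C c * ∑ i ∈ range (p + 1),
      Polynomial.C (((bernoulli i * ((p + 1).choose i) / (p + 1) : ℚ)) : ℝ) * Polynomial.X ^ (p + 1 - i),
      fun n => ?_⟩
    have h := sum_range_pow n p
    have h2 : (∑ k ∈ range n, (k : ℝ) ^ p) =
        ∑ i ∈ range (p + 1), ((bernoulli i * ((p + 1).choose i) * (n : ℚ) ^ (p + 1 - i) / (p + 1) : ℚ) : ℝ) := by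
      have h3 := congrArg (fun x : ℚ => (x : ℝ)) h
      push_cast at h3 ⊢
      exact h3
    simp only [Polynomial.eval_mul, Polynomial.eval_C, Polynomial.eval_finsetSum, Polynomial.eval_pow,
      Polynomial.eval_X, Polynomial.eval_monomial]
    rw [← Finset.mul_sum, h2]
    congr 1
    refine Finset.sum_congr rfl fun i _ => ?_
    push_cast
    ring

section

variable {M : Type} [Group M] {K : Type} [NormedAddCommGroup K] [InnerProductSpace ℂ K]
  (ρ : M →* (K ≃ₗᵢ[ℂ] K))

/-- `ρ x = c • ρ y` -/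
def Sim (x y : M) (c : ℂ) : Prop := ∀ h, ρ x h = c • ρ y h

lemma rho_mul (x y : M) (h : K) : ρ (x * y) h = ρ x (ρ y h) := by
  rw [map_mul]; rfl

lemma rho_one (h : K) : ρ 1 h = h := by
  rw [map_one]; rfl

variable {ρ}

lemma Sim.mul {x y x' y' : M} {c c' : ℂ} (h : Sim ρ x y c) (h' : Sim ρ x' y' c') :
    Sim ρ (x * x') (y * y') (c * c') := by
  intro v
  rw [rho_mul, h, h', map_smul, smul_smul, rho_mul]

lemma Sim.refl (x : M) : Sim ρ x x 1 := fun v => by simp

lemma Sim.trans {x y z : M} {c c' : ℂ} (h : Sim ρ x y c) (h' : Sim ρ y z c') : Sim ρ x z (c * c') := by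
  intro v
  rw [h, h', smul_smul]

lemma Sim.pow {x y : M} {c : ℂ} (h : Sim ρ x y c) (n : ℕ) : Sim ρ (x ^ n) (y ^ n) (c ^ n) := by
  induction n with
  | zero => simpa using Sim.refl (ρ := ρ) 1
  | succ n ih => rw [pow_succ, pow_succ, pow_succ]; exact ih.mul h

lemma Sim.norm [Nontrivial K] {x y : M} {c : ℂ} (h : Sim ρ x y c) : ‖c‖ = 1 := by
  obtain ⟨v, hv⟩ := exists_ne (0 : K)
  have h1 : ‖ρ x v‖ = ‖c • ρ y v‖ := by rw [h v]
  rw [norm_smul, LinearIsometryEquiv.norm_map, LinearIsometryEquiv.norm_map] at h1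
  have hv' : ‖v‖ ≠ 0 := norm_ne_zero_iff.2 hv
  field_simp at h1
  exact h1.symm

variable (ρ)

/-- the elements acting as scalars -/
def Sc : Subgroup M where
  carrier := {x | ∃ c : ℂ, ∀ h, ρ x h = c • h}
  one_mem' := ⟨1, fun h => by rw [rho_one, one_smul]⟩
  mul_mem' := by
    rintro x y ⟨c, hc⟩ ⟨d, hd⟩
    exact ⟨c * d, fun h => by rw [rho_mul, hd, map_smul, hc, smul_smul, mul_comm]⟩
  inv_mem' := by
    rintro x ⟨c, hc⟩
    refine ⟨c⁻¹, fun h => ?_⟩
    have h1 : ρ x⁻¹ (ρ x h) = h := by rw [← rho_mul, inv_mul_cancel, rho_one]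
    rw [hc, map_smul] at h1
    by_cases h0 : c = 0
    · subst h0
      rw [zero_smul] at h1
      rw [← h1, map_zero, smul_zero]
    · rw [← h1, smul_smul, inv_mul_cancel₀ h0, one_smul, h1]

lemma mem_Sc (x : M) : x ∈ Sc ρ ↔ ∃ c : ℂ, ∀ h, ρ x h = c • h := Iff.rfl

instance : (Sc ρ).Normal := by
  refine ⟨?_⟩
  rintro x ⟨c, hc⟩ g
  refine ⟨c, fun h => ?_⟩
  rw [rho_mul, rho_mul, hc, map_smul, ← rho_mul, mul_inv_cancel, rho_one]

/-- `ρ x` as a linear map -/
def A (x : M) : K →ₗ[ℂ] K := (ρ x).toLinearEquiv.toLinearMap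

lemma A_apply (x : M) (h : K) : A ρ x h = ρ x h := rfl

lemma A_mul (x y : M) : A ρ (x * y) = A ρ x * A ρ y := by
  ext h
  rw [A_apply, rho_mul]; rfl

lemma A_one : A ρ 1 = 1 := by
  ext h
  rw [A_apply, rho_one]; rfl

lemma det_ne (x : M) : LinearMap.det (A ρ x) ≠ 0 := by
  intro h0
  have h1 : LinearMap.det (A ρ x) * LinearMap.det (A ρ x⁻¹) = 1 := by
    rw [← map_mul, ← A_mul, mul_inv_cancel, A_one, map_one]
  rw [h0, zero_mul] at h1
  exact zero_ne_one h1

/-- a scalar commutator is a root of unity -/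
lemma comm_pow {x y : M} {c : ℂ} (h : Sim ρ (x * y) (y * x) c) : c ^ Module.finrank ℂ K = 1 := by
  have h1 : A ρ (x * y) = c • A ρ (y * x) := by
    ext v
    rw [A_apply, h v]; rfl
  have h2 := congrArg LinearMap.det h1
  rw [LinearMap.det_smul, A_mul, A_mul, map_mul, map_mul, mul_comm (LinearMap.det (A ρ y))] at h2
  have h3 : LinearMap.det (A ρ x) * LinearMap.det (A ρ y) ≠ 0 := mul_ne_zero (det_ne ρ x) (det_ne ρ y)
  have h4 : (c ^ Module.finrank ℂ K - 1) * (LinearMap.det (A ρ x) * LinearMap.det (A ρ y)) = 0 := by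
    rw [sub_mul, one_mul, ← h2, sub_self]
  rcases mul_eq_zero.1 h4 with h5 | h5
  · exact sub_eq_zero.1 h5
  · exact absurd h5 h3

/-- first part of PH -/
lemma part_one (hE : S_EXP) (k : ℕ → M) (s : ℕ) (hk : Seq M k s) (hρ : IrrU ρ) [FiniteDimensional ℂ K] :
    ∃ q : ℕ, 0 < q ∧ ∀ x : M, ∃ c : ℂ, ∀ h, ρ (x ^ q) h = c • h := by
  have : Group.IsNilpotent M := ⟨⟨s, hk.cls⟩⟩
  rcases subsingleton_or_nontrivial K with hK | hK
  · exact ⟨1, one_pos, fun x => ⟨1, fun h => Subsingleton.elim _ _⟩⟩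
  obtain ⟨q, hq, h⟩ := hE (M ⧸ Sc ρ) (Module.finrank ℂ K) Module.finrank_pos (by
    intro z hz
    induction z using QuotientGroup.induction_on with
    | H x =>
      rw [← QuotientGroup.mk_pow, QuotientGroup.eq_one_iff, mem_Sc]
      have hcom : ∀ y : M, ∃ c : ℂ, Sim ρ (x * y) (y * x) c := by
        intro y
        have h1 := (Subgroup.mem_center_iff.1 hz) (y : M ⧸ Sc ρ)
        rw [← QuotientGroup.mk_mul, ← QuotientGroup.mk_mul, QuotientGroup.eq, mem_Sc] at h1
        obtain ⟨c, hc⟩ := h1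
        refine ⟨c, fun v => ?_⟩
        have h2 : x * y = (y * x) * ((y * x)⁻¹ * (x * y)) := by group
        rw [h2, rho_mul, hc, map_smul]
      have hpow : ∀ (y : M) (c : ℂ), Sim ρ (x * y) (y * x) c → ∀ n : ℕ,
          Sim ρ (x ^ n * y) (y * x ^ n) (c ^ n) := by
        intro y c hc n
        induction n with
        | zero => simpa using Sim.refl (ρ := ρ) y
        | succ n ih =>
          have e1 : x ^ (n + 1) * y = x ^ n * (x * y) := by rw [pow_succ]; group
          have e2 : y * x ^ (n + 1) = y * x ^ n * x := by rw [pow_succ]; group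
          rw [e1, e2, pow_succ c n, mul_comm (c ^ n) c]
          have h3 : Sim ρ (x ^ n * (x * y)) (x ^ n * (y * x)) (1 * c) := (Sim.refl (x ^ n)).mul hc
          have h4 : Sim ρ (x ^ n * y * x) (y * x ^ n * x) (c ^ n * 1) := ih.mul (Sim.refl x)
          rw [one_mul] at h3
          rw [mul_one] at h4
          have h5 : x ^ n * (y * x) = x ^ n * y * x := by group
          rw [h5] at h3
          exact h3.trans h4
      set d := Module.finrank ℂ K with hd
      have hc : ∀ (y : M) (h : K), ρ (x ^ d) (ρ y h) = ρ y (ρ (x ^ d) h) := by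
        intro y h
        obtain ⟨c, hc⟩ := hcom y
        have h1 := hpow y c hc d h
        rw [comm_pow ρ hc, one_smul, rho_mul, rho_mul] at h1
        exact h1
      obtain ⟨c, hc'⟩ := hρ ((ρ (x ^ d) : K ≃L[ℂ] K) : K →L[ℂ] K) (fun y h => hc y h)
      exact ⟨c, hc'⟩)
  refine ⟨q, hq, fun x => ?_⟩
  have h1 := h (x : M ⧸ Sc ρ)
  rw [← QuotientGroup.mk_pow, QuotientGroup.eq_one_iff, mem_Sc] at h1
  exact h1

lemma exists_e (c : ℂ) (hc : ‖c‖ = 1) : ∃ t : ℝ, e t = c := by
  refine ⟨c.arg / (2 * Real.pi), ?_⟩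
  have hpi : (Real.pi : ℂ) ≠ 0 := by exact_mod_cast Real.pi_ne_zero
  have h2 : 2 * (Real.pi : ℂ) * Complex.I * ((c.arg / (2 * Real.pi) : ℝ) : ℂ) = c.arg * Complex.I := by
    push_cast
    field_simp
  rw [e, h2]
  have h1 := Complex.norm_mul_exp_arg_mul_I c
  rw [hc] at h1
  simpa using h1

lemma e_add (s t : ℝ) : e (s + t) = e s * e t := by
  rw [e, e, e, ← Complex.exp_add]
  congr 1
  push_cast
  ring

lemma e_zero : e 0 = 1 := by simp [e]

lemma e_nat_mul (n : ℕ) (t : ℝ) : e (n * t) = e t ^ n := by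
  induction n with
  | zero => simp [e_zero]
  | succ n ih =>
    rw [pow_succ, ← ih, ← e_add]
    congr 1
    push_cast
    ring

/-- second part of PH -/
lemma part_two [Nontrivial K] {q : ℕ} (hq : 0 < q) (hqs : ∀ x : M, ∃ c : ℂ, ∀ h, ρ (x ^ q) h = c • h) (L : ℕ) :
    ∀ w : ℕ → M, D^[L] w = (fun _ => 1) → ∃ Q : ℕ, 0 < Q ∧ ∀ a : ℕ, ∃ P : ℝ[X], ∀ j : ℕ,
      Sim ρ (w (a + Q * j)) (w a) (e (P.eval (j : ℝ))) := by
  induction L with
  | zero =>
    intro w hw
    rw [Function.iterate_zero, id] at hw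
    subst hw
    exact ⟨1, one_pos, fun a => ⟨0, fun j => by simpa [e_zero] using Sim.refl (ρ := ρ) 1⟩⟩
  | succ L ih =>
    intro w hw
    rw [Function.iterate_succ, Function.comp_apply] at hw
    obtain ⟨Q', hQ', hP⟩ := ih (D w) hw
    choose P' hP' using hP
    refine ⟨Q' * q, Nat.mul_pos hQ' hq, fun a => ?_⟩
    -- the blocks
    have hblock : ∀ (m j : ℕ), Sim ρ ((w (a + Q' * j))⁻¹ * w (a + Q' * j + m)) ((w a)⁻¹ * w (a + m))
        (e (∑ i ∈ range m, (P' (a + i)).eval (j : ℝ))) := by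
      intro m j
      induction m with
      | zero => simpa [e_zero] using Sim.refl (ρ := ρ) 1
      | succ m ihm =>
        have e1 : (w (a + Q' * j))⁻¹ * w (a + Q' * j + (m + 1)) =
            ((w (a + Q' * j))⁻¹ * w (a + Q' * j + m)) * D w (a + m + Q' * j) := by
          rw [D, show a + m + Q' * j = a + Q' * j + m by ring,
            show a + Q' * j + (m + 1) = a + Q' * j + m + 1 by ring]
          group
        have e2 : (w a)⁻¹ * w (a + (m + 1)) = ((w a)⁻¹ * w (a + m)) * D w (a + m) := by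
          rw [D, show a + (m + 1) = a + m + 1 by ring]
          group
        rw [e1, e2, Finset.sum_range_succ, e_add]
        exact ihm.mul (hP' (a + m) j)
    obtain ⟨S, hS⟩ := exS (∑ i ∈ range Q', P' (a + i))
    set p := (w a)⁻¹ * w (a + Q') with hp
    have hstep : ∀ j : ℕ, Sim ρ (w (a + Q' * j)) (w a * p ^ j) (e (S.eval (j : ℝ))) := by
      intro j
      induction j with
      | zero =>
        have h0 : S.eval ((0 : ℕ) : ℝ) = 0 := by rw [hS]; simp
        rw [h0, e_zero]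
        simpa using Sim.refl (ρ := ρ) (w a)
      | succ j ihj =>
        have e1 : w (a + Q' * (j + 1)) = w (a + Q' * j) * ((w (a + Q' * j))⁻¹ * w (a + Q' * j + Q')) := by
          rw [show a + Q' * (j + 1) = a + Q' * j + Q' by ring]
          group
        have e2 : w a * p ^ (j + 1) = w a * p ^ j * p := by rw [pow_succ, mul_assoc]
        have e3 : S.eval ((j + 1 : ℕ) : ℝ) = S.eval (j : ℝ) + ∑ i ∈ range Q', (P' (a + i)).eval (j : ℝ) := by
          rw [hS, hS, Finset.sum_range_succ, Polynomial.eval_finsetSum]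
        rw [e1, e2, e3, e_add]
        exact ihj.mul (hblock Q' j)
    obtain ⟨c, hc⟩ := hqs p
    have hc' : Sim ρ (p ^ q) 1 c := fun h => by rw [hc, rho_one]
    obtain ⟨θ, hθ⟩ := exists_e c hc'.norm
    refine ⟨S.comp (Polynomial.C (q : ℝ) * Polynomial.X) + Polynomial.C θ * Polynomial.X, fun j => ?_⟩
    have h1 := hstep (q * j)
    have h2 : Sim ρ (w a * p ^ (q * j)) (w a * 1) (1 * c ^ j) := by
      refine (Sim.refl (w a)).mul ?_
      rw [pow_mul]
      simpa using hc'.pow j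
    have h3 := h1.trans h2
    rw [mul_one, one_mul] at h3
    have e1 : a + Q' * q * j = a + Q' * (q * j) := by ring
    have e2 : (S.comp (Polynomial.C (q : ℝ) * Polynomial.X) + Polynomial.C θ * Polynomial.X).eval (j : ℝ) =
        S.eval ((q * j : ℕ) : ℝ) + j * θ := by
      simp [Polynomial.eval_comp]
      ring
    rw [e1, e2, e_add, e_nat_mul, hθ]
    exact h3

end

/-- PH -/
theorem t_PH : S_EXP → S_PH := by
  intro hE M _ k s hk K _ _ _ ρ hρ hfin
  have := hfin
  obtain ⟨q, hq, h⟩ := part_one ρ hE k s hk hρ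
  refine ⟨⟨q, hq, h⟩, ?_⟩
  rcases subsingleton_or_nontrivial K with hK | hK
  · exact ⟨1, one_pos, fun a => ⟨0, fun j h => Subsingleton.elim _ _⟩⟩
  obtain ⟨L, hL⟩ := hk.diff
  exact part_two ρ hq h L k hL

end Pool.Agent.U535.NIL
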